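import Pool.Agent.N356.SP.Defs

set_option autoImplicit false

/-! LS18a (helper803): the tangency lemmas for the structure `Good'`, after N811/SP/Real3 and Real5. -/

namespace Pool.Agent.N803.LS

open Pool.Agent.N356.SP

/-- the tangency point -/
theorem exists_y' {n β K Q : ℝ} (h : Good' n β K) (hQ0 : 0 < Q) (hQ1 : Q < 1) :
    ∃ y, 0 < y ∧ (1 - 1 / n) * β * y < 1 ∧ Q * (1 + (1 - 1 / n) * y) ^ (1 + β) = K * y := by
  have hn := h.hn
  have hβ := h.hβ
  have hK0 : 0 < K := by rw [← h.hK]; exact Real.rpow_pos_of_pos (by linarith) _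
  have hm : 0 < 1 - 1 / n := by
    have : 1 / n ≤ 1 / 2 := by gcongr
    linarith
  have c2 := h.c2
  set m := 1 - 1 / n with hmdef
  set p := m * β with hp
  have hp0 : 0 < p := by positivity
  set φ : ℝ → ℝ := fun y => K * y - Q * (1 + m * y) ^ (1 + β) with hφ
  have hcont : ContinuousOn φ (Set.Icc 0 (1 / p)) := by
    intro y hy
    have : 0 < 1 + m * y := by have := hy.1; positivity
    apply ContinuousAt.continuousWithinAt
    refine (continuousAt_const.mul continuousAt_id).sub (continuousAt_const.mul ?_)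
    exact ContinuousAt.rpow_const (by fun_prop) (Or.inl this.ne')
  have h0 : φ 0 < 0 := by simp [hφ, hQ0]
  have h1 : 0 < φ (1 / p) := by
    simp only [hφ]
    have e1 : m * (1 / p) = m / p := by ring
    rw [e1]
    have : Q * (1 + m / p) ^ (1 + β) ≤ Q * (K / p) := mul_le_mul_of_nonneg_left c2 hQ0.le
    have h3 : Q * (K / p) < 1 * (K / p) := mul_lt_mul_of_pos_right hQ1 (by positivity)
    have e2 : K * (1 / p) = K / p := by ring
    linarith
  obtain ⟨y, hy, hy0⟩ := intermediate_value_Ioo (by positivity) hcont ⟨h0, h1⟩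
  refine ⟨y, hy.1, ?_, ?_⟩
  · have := hy.2
    rw [lt_div_iff₀ hp0] at this
    linarith
  · simp only [hφ] at hy0
    linarith

/-- sign of `Q (1 + m y)^(1+β) - K y` on both sides of the tangency point -/
theorem sign_y' {n β K Q : ℝ} (h : Good' n β K) (hQ0 : 0 < Q) (hQ1 : Q < 1) {y₁ : ℝ}
    (hy0 : 0 < y₁) (hpy : (1 - 1 / n) * β * y₁ < 1)
    (hy : Q * (1 + (1 - 1 / n) * y₁) ^ (1 + β) = K * y₁) :
    (∀ y, 0 ≤ y → y ≤ y₁ → K * y ≤ Q * (1 + (1 - 1 / n) * y) ^ (1 + β)) ∧
    (∀ y, y₁ ≤ y → y ≤ n → Q * (1 + (1 - 1 / n) * y) ^ (1 + β) ≤ K * y) ∧ y₁ < n := by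
  have hn := h.hn
  have hβ := h.hβ
  have hK := h.hK
  have hn0 : 0 < n := by linarith
  have hK0 : 0 < K := by rw [← hK]; exact Real.rpow_pos_of_pos (by linarith) _
  have hm : 0 < 1 - 1 / n := by
    have : 1 / n ≤ 1 / 2 := by gcongr
    linarith
  have hyn : y₁ < n := by
    have h1 := h.hnp
    have e : (1 - 1 / n) * β * y₁ = (n - 1) * β * y₁ / n := by field_simp
    rw [e, div_lt_one (by linarith)] at hpy
    linarith [mul_le_mul_of_nonneg_right h1 hy0.le]
  have hmn : 1 + (1 - 1 / n) * n = n := by field_simp; ring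
  set m := 1 - 1 / n with hmdef
  set g : ℝ → ℝ := fun y => Q * (1 + m * y) ^ (1 + β) - K * y with hg
  have hgn : g n < 0 := by
    simp only [hg]
    rw [hmn, Real.rpow_add hn0, Real.rpow_one, hK]
    have : Q * (n * K) < 1 * (n * K) := mul_lt_mul_of_pos_right hQ1 (by positivity)
    linarith
  have hg1 : g y₁ = 0 := by simp only [hg]; linarith
  have hcv := (convexOn_rpow (by linarith : (1:ℝ) ≤ 1 + β)).2
  have conv : ∀ x y θ : ℝ, 0 ≤ x → 0 ≤ y → 0 ≤ θ → θ ≤ 1 →
      g ((1 - θ) * x + θ * y) ≤ (1 - θ) * g x + θ * g y := by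
    intro x y θ hx hy hθ0 hθ1
    have h1 := hcv (x := 1 + m * x) (by simp only [Set.mem_Ici]; positivity) (y := 1 + m * y)
      (by simp only [Set.mem_Ici]; positivity) (a := 1 - θ) (b := θ) (by linarith) hθ0 (by ring)
    simp only [smul_eq_mul] at h1
    have e1 : (1 - θ) * (1 + m * x) + θ * (1 + m * y) = 1 + m * ((1 - θ) * x + θ * y) := by ring
    rw [e1] at h1
    simp only [hg]
    have := mul_le_mul_of_nonneg_left h1 hQ0.le
    nlinarith
  refine ⟨fun y hy0' hy1 => ?_, fun y hy1 hy2 => ?_, hyn⟩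
  · rcases hy1.eq_or_lt with rfl | hlt
    · linarith
    · have hd : 0 < n - y := by linarith
      set θ := (y₁ - y) / (n - y) with hθ
      have hθ0 : 0 < θ := div_pos (by linarith) hd
      have hθ1 : θ < 1 := by rw [hθ, div_lt_one hd]; linarith
      have e : (1 - θ) * y + θ * n = y₁ := by
        have : θ * (n - y) = y₁ - y := by rw [hθ]; exact div_mul_cancel₀ _ hd.ne'
        linarith
      have := conv y n θ hy0' hn0.le hθ0.le hθ1.le
      rw [e, hg1] at this
      have h2 : 0 ≤ (1 - θ) * g y := by nlinarith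
      have h3 : 0 ≤ g y := nonneg_of_mul_nonneg_right h2 (by linarith)
      simp only [hg] at h3
      linarith
  · have hd : 0 < n - y₁ := by linarith
    set θ := (y - y₁) / (n - y₁) with hθ
    have hθ0 : 0 ≤ θ := div_nonneg (by linarith) hd.le
    have hθ1 : θ ≤ 1 := by rw [hθ, div_le_one hd]; linarith
    have e : (1 - θ) * y₁ + θ * n = y := by
      have : θ * (n - y₁) = y - y₁ := by rw [hθ]; exact div_mul_cancel₀ _ hd.ne'
      linarith
    have := conv y₁ n θ hy0.le hn0.le hθ0 hθ1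
    rw [e, hg1] at this
    have h3 : g y ≤ 0 := by nlinarith
    simp only [hg] at h3
    linarith

/-- the minimum over `u` -/
theorem min_u' {n β K Q : ℝ} (h : Good' n β K) (hQ0 : 0 < Q) (hQ1 : Q < 1) {y₁ : ℝ}
    (hy0 : 0 < y₁) (hpy : (1 - 1 / n) * β * y₁ < 1)
    (hy : Q * (1 + (1 - 1 / n) * y₁) ^ (1 + β) = K * y₁) {u : ℝ} (hu0 : 0 ≤ u) (hu1 : u ≤ 1) :
    ((1 - y₁ / n) / ((1 + (1 - 1 / n) * y₁) ^ ((1 + β) / 2) *
      (1 - y₁ / n) ^ (((n - 1) * β + 1) / 2))) ^ 2 * (1 - u) ^ (n * β) ≤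
      (1 - (Q * u ^ β) ^ (1 / (1 + β))) ^ (1 + β) := by
  have hn := h.hn
  have hβ := h.hβ
  have hn0 : 0 < n := by linarith
  have hK := h.hK
  have hK0 : 0 < K := by rw [← hK]; exact Real.rpow_pos_of_pos (by linarith) _
  have hm : 0 < 1 - 1 / n := by
    have : 1 / n ≤ 1 / 2 := by gcongr
    linarith
  obtain ⟨P1, P2, hyn⟩ := sign_y' h hQ0 hQ1 hy0 hpy hy
  have hnm : n * (1 - 1 / n) = n - 1 := by field_simp
  set m := 1 - 1 / n with hmdef
  have hβ1 : 0 < 1 + β := by linarith
  set γ := β / (1 + β) with hγ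
  have hγ0 : 0 < γ := by positivity
  have hγ1 : γ * (1 + β) = β := by rw [hγ]; field_simp
  set κ := Q ^ (1 / (1 + β)) with hκ
  have hκ0 : 0 < κ := Real.rpow_pos_of_pos hQ0 _
  have hκ1 : κ < 1 := Real.rpow_lt_one hQ0.le hQ1 (by positivity)
  have hκp : κ ^ (1 + β) = Q := by
    rw [hκ, ← Real.rpow_mul hQ0.le, one_div_mul_cancel hβ1.ne', Real.rpow_one]
  set w : ℝ → ℝ := fun Y => κ * (Y / n) ^ γ with hw
  have hw0 : ∀ Y, 0 ≤ Y → 0 ≤ w Y := fun Y hY => by simp only [hw]; positivity
  have hw1 : ∀ Y, 0 ≤ Y → Y ≤ n → w Y < 1 := fun Y hY hYn => by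
    simp only [hw]
    have h1 : (Y / n) ^ γ ≤ 1 := Real.rpow_le_one (by positivity)
      (by rw [div_le_one hn0]; exact hYn) hγ0.le
    have h2 : 0 ≤ (Y / n) ^ γ := by positivity
    nlinarith
  have hwp : ∀ Y, 0 ≤ Y → w Y ^ (1 + β) = Q * (Y / n) ^ β := fun Y hY => by
    simp only [hw]
    rw [Real.mul_rpow hκ0.le (by positivity), hκp, ← Real.rpow_mul (by positivity), hγ1]
  have hwu : (Q * u ^ β) ^ (1 / (1 + β)) = w (n * u) := by
    have h1 : n * u / n = u := by field_simp
    simp only [hw]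
    rw [h1, Real.mul_rpow hQ0.le (by positivity), ← Real.rpow_mul hu0, hγ]
    congr 2
    ring
  -- comparison of `w` with `Y/(1+mY)`
  have hcmp : ∀ Y, 0 < Y → (Y / (1 + m * Y)) ^ (1 + β) = Y * Y ^ β / (1 + m * Y) ^ (1 + β) :=
    fun Y hY => by
      rw [Real.div_rpow hY.le (by positivity), Real.rpow_add hY, Real.rpow_one]
  have hwp' : ∀ Y, 0 < Y → w Y ^ (1 + β) = Q * Y ^ β / K := fun Y hY => by
    rw [hwp Y hY.le, Real.div_rpow hY.le hn0.le, hK]; ring
  have wle : ∀ Y, 0 < Y → Q * (1 + m * Y) ^ (1 + β) ≤ K * Y → w Y ≤ Y / (1 + m * Y) := by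
    intro Y hY hle
    have hv : 0 < 1 + m * Y := by positivity
    rw [← Real.rpow_le_rpow_iff (hw0 Y hY.le) (by positivity) hβ1, hcmp Y hY, hwp' Y hY,
      div_le_div_iff₀ hK0 (by positivity)]
    have := mul_le_mul_of_nonneg_left hle (by positivity : 0 ≤ Y ^ β)
    linarith
  have wge : ∀ Y, 0 < Y → K * Y ≤ Q * (1 + m * Y) ^ (1 + β) → Y / (1 + m * Y) ≤ w Y := by
    intro Y hY hle
    have hv : 0 < 1 + m * Y := by positivity
    rw [← Real.rpow_le_rpow_iff (by positivity) (hw0 Y hY.le) hβ1, hcmp Y hY, hwp' Y hY,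
      div_le_div_iff₀ (by positivity) hK0]
    have := mul_le_mul_of_nonneg_left hle (by positivity : 0 ≤ Y ^ β)
    linarith
  have hw₁ : w y₁ = y₁ / (1 + m * y₁) := le_antisymm (wle y₁ hy0 hy.le) (wge y₁ hy0 hy.ge)
  set f : ℝ → ℝ := fun Y => (1 + β) * Real.log (1 - w Y) - n * β * Real.log (1 - Y / n) with hf
  have hrpos : ∀ Y, Y < n → 0 < 1 - Y / n := fun Y hY => by
    have : Y / n < 1 := by rw [div_lt_one hn0]; exact hY
    linarith
  have dw : ∀ Y, 0 < Y → HasDerivAt w (γ * w Y / Y) Y := fun Y hY => by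
    have h1 : HasDerivAt (fun Y : ℝ => Y / n) (1 / n) Y := by
      have := (hasDerivAt_id Y).div_const n
      simpa using this
    have h2 : Y / n ≠ 0 := by positivity
    refine ((h1.rpow_const (p := γ) (Or.inl h2)).const_mul κ).congr_deriv ?_
    rw [Real.rpow_sub_one h2]
    simp only [hw]
    field_simp
  have df : ∀ Y, 0 < Y → Y < n → HasDerivAt f
      (β * (1 / (1 - Y / n) - w Y / (Y * (1 - w Y)))) Y := fun Y hY hYn => by
    have h1 : HasDerivAt (fun Y : ℝ => 1 - Y / n) (-(1 / n)) Y := by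
      have := ((hasDerivAt_id Y).div_const n).const_sub 1
      simpa using this
    have h2 := hrpos Y hYn
    have h3 := hw1 Y hY.le hYn.le
    have h4 : 1 - w Y ≠ 0 := by linarith
    have h5 := (((dw Y hY).const_sub 1).log h4).const_mul (1 + β)
    have h6 := (h1.log h2.ne').const_mul (n * β)
    refine (h5.sub h6).congr_deriv ?_
    have h7 : γ = β / (1 + β) := rfl
    rw [h7]
    field_simp
    ring
  have hcf : ContinuousOn f (Set.Ico 0 n) := by
    intro Y hY
    apply ContinuousAt.continuousWithinAt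
    have h2 := hrpos Y hY.2
    have h3 := hw1 Y hY.1 hY.2.le
    have h4 : 1 - w Y ≠ 0 := by linarith
    have cw : ContinuousAt w Y := by
      refine continuousAt_const.mul ?_
      exact ContinuousAt.rpow_const (by fun_prop) (Or.inr hγ0.le)
    refine (continuousAt_const.mul ((continuousAt_const.sub cw).log h4)).sub
      (continuousAt_const.mul (ContinuousAt.log (by fun_prop) h2.ne'))
  have hmin : ∀ Y, 0 ≤ Y → Y < n → f y₁ ≤ f Y := by
    intro Y hY hYn
    rcases le_total Y y₁ with hle | hge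
    · have hanti : AntitoneOn f (Set.Icc 0 y₁) := by
        refine antitoneOn_of_deriv_nonpos (convex_Icc 0 y₁)
          (hcf.mono fun z hz => ⟨hz.1, lt_of_le_of_lt hz.2 hyn⟩) ?_ ?_
        · intro z hz
          rw [interior_Icc] at hz
          exact (df z hz.1 (lt_trans hz.2 hyn)).differentiableAt.differentiableWithinAt
        · intro z hz
          rw [interior_Icc] at hz
          have hz0 : 0 < z := hz.1
          rw [(df z hz.1 (lt_trans hz.2 hyn)).deriv]
          have h1 := wge z hz.1 (P1 z hz.1.le hz.2.le)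
          have h2 := hrpos z (lt_trans hz.2 hyn)
          have h3 := hw1 z hz.1.le (lt_trans hz.2 hyn).le
          have hv : 0 < 1 + m * z := by positivity
          apply mul_nonpos_of_nonneg_of_nonpos hβ.le
          rw [sub_nonpos, div_le_div_iff₀ h2 (mul_pos hz0 (by linarith))]
          rw [div_le_iff₀ hv] at h1
          have e : 1 + m * z = (1 - z / n) + z := by rw [hmdef]; ring
          rw [e] at h1
          linarith
      exact hanti ⟨hY, hle⟩ ⟨hy0.le, le_rfl⟩ hle
    · have hmono : MonotoneOn f (Set.Ico y₁ n) := by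
        refine monotoneOn_of_deriv_nonneg (convex_Ico y₁ n)
          (hcf.mono fun z hz => ⟨hy0.le.trans hz.1, hz.2⟩) ?_ ?_
        · intro z hz
          rw [interior_Ico] at hz
          exact (df z (lt_trans hy0 hz.1) hz.2).differentiableAt.differentiableWithinAt
        · intro z hz
          rw [interior_Ico] at hz
          have hz0 : 0 < z := lt_trans hy0 hz.1
          rw [(df z hz0 hz.2).deriv]
          have h1 := wle z hz0 (P2 z hz.1.le hz.2.le)
          have h2 := hrpos z hz.2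
          have h3 := hw1 z hz0.le hz.2.le
          have hv : 0 < 1 + m * z := by positivity
          apply mul_nonneg hβ.le
          rw [sub_nonneg, div_le_div_iff₀ (mul_pos hz0 (by linarith)) h2]
          rw [le_div_iff₀ hv] at h1
          have e : 1 + m * z = (1 - z / n) + z := by rw [hmdef]; ring
          rw [e] at h1
          linarith
      exact hmono ⟨le_rfl, hyn⟩ ⟨hge, hYn⟩ hge
  rw [hwu]
  have hr₁ := hrpos y₁ hyn
  have hv₁ : 0 < 1 + m * y₁ := by positivity
  set r₁ := 1 - y₁ / n with hr₁def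
  set v₁ := 1 + m * y₁ with hv₁def
  set E := r₁ / (v₁ ^ ((1 + β) / 2) * r₁ ^ (((n - 1) * β + 1) / 2)) with hE
  have hE0 : 0 < E := by positivity
  have hf₁ : f y₁ = 2 * Real.log E := by
    have e1 : 1 - w y₁ = r₁ / v₁ := by
      have : v₁ = r₁ + y₁ := by rw [hv₁def, hr₁def, hmdef]; ring
      rw [hw₁, eq_div_iff hv₁.ne', sub_mul, div_mul_cancel₀ _ hv₁.ne']
      linarith
    simp only [hf]
    rw [e1, Real.log_div hr₁.ne' hv₁.ne', hE, Real.log_div hr₁.ne' (by positivity),
      Real.log_mul (by positivity) (by positivity), Real.log_rpow hv₁, Real.log_rpow hr₁]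
    ring
  rcases hu1.eq_or_lt with h1 | h1
  · rw [h1, sub_self, Real.zero_rpow (by positivity), mul_zero]
    have h3 := hw1 n hn0.le le_rfl
    rw [mul_one]
    exact Real.rpow_nonneg (by linarith) _
  · have hY : n * u < n := by nlinarith
    have h2 := hmin (n * u) (by positivity) hY
    rw [hf₁] at h2
    have h3 := hw1 (n * u) (by positivity) hY.le
    have h4 : n * u / n = u := by field_simp
    simp only [hf] at h2
    rw [h4] at h2
    have h5 : 0 < 1 - u := by linarith
    have h6 : 0 < 1 - w (n * u) := by linarith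
    rw [Real.rpow_def_of_pos h5, Real.rpow_def_of_pos h6]
    have e2 : E ^ 2 = Real.exp (2 * Real.log E) := by
      rw [mul_comm, Real.exp_mul, Real.exp_log hE0]
      norm_num
    rw [e2, ← Real.exp_add]
    apply Real.exp_le_exp.2
    linarith

end Pool.Agent.N803.LS
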